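import Mathlib

set_option autoImplicit false

/-! Random subsets of a finite set with independent members of arbitrary probabilities. -/

namespace Pool.Agent.Y395.RW

open Finset

/-- the probability of the subset `F` of `E` -/
noncomputable def wt {α : Type} [DecidableEq α] (p : α → ℝ) (E F : Finset α) : ℝ :=
  (∏ e ∈ F, p e) * ∏ e ∈ E \ F, (1 - p e)

open Classical in
/-- the probability of the event `P` -/
noncomputable def pr {α : Type} [DecidableEq α] (p : α → ℝ) (E : Finset α)
    (P : Finset α → Prop) : ℝ :=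
  ∑ F ∈ E.powerset.filter (fun F => P F), wt p E F

section

variable {α : Type} [DecidableEq α] {p : α → ℝ} (h0 : ∀ e, 0 ≤ p e) (h1 : ∀ e, p e ≤ 1)

include h0 h1

theorem wt_nonneg (E F : Finset α) : 0 ≤ wt p E F :=
  mul_nonneg (prod_nonneg fun e _ => h0 e) (prod_nonneg fun e _ => by linarith [h1 e])

theorem pr_nonneg (E : Finset α) (P : Finset α → Prop) : 0 ≤ pr p E P :=
  sum_nonneg fun F _ => wt_nonneg h0 h1 E F

theorem pr_mono {E : Finset α} {P Q : Finset α → Prop} (h : ∀ F, F ⊆ E → P F → Q F) :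
    pr p E P ≤ pr p E Q := by
  classical
  unfold pr
  apply sum_le_sum_of_subset_of_nonneg
  · intro F hF
    simp only [mem_filter, mem_powerset] at hF ⊢
    exact ⟨hF.1, h F hF.1 hF.2⟩
  · intro F _ _
    exact wt_nonneg h0 h1 E F

omit h0 h1 in
theorem pr_true (E : Finset α) : pr p E (fun _ => True) = 1 := by
  classical
  unfold pr
  rw [filter_true]
  unfold wt
  rw [← prod_add]
  apply prod_eq_one
  intro e _
  ring

omit h0 h1 in
theorem pr_false (E : Finset α) : pr p E (fun _ => False) = 0 := by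
  classical
  unfold pr
  simp

theorem pr_le_one (E : Finset α) (P : Finset α → Prop) : pr p E P ≤ 1 := by
  rw [← pr_true (p := p) E]
  exact pr_mono h0 h1 fun _ _ _ => trivial

theorem pr_or (E : Finset α) (P Q : Finset α → Prop) :
    pr p E (fun F => P F ∨ Q F) ≤ pr p E P + pr p E Q := by
  classical
  have e : ∀ R : Finset α → Prop, pr p E R = ∑ F ∈ E.powerset, (if R F then wt p E F else 0) := by
    intro R
    unfold pr
    rw [sum_filter]
  rw [e, e, e, ← sum_add_distrib]
  apply sum_le_sum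
  intro F _
  have := wt_nonneg h0 h1 E F
  by_cases hP : P F <;> by_cases hQ : Q F <;> simp [hP, hQ, this]

theorem pr_ex {ι : Type} (E : Finset α) (I : Finset ι) (P : ι → Finset α → Prop) :
    pr p E (fun F => ∃ i ∈ I, P i F) ≤ ∑ i ∈ I, pr p E (P i) := by
  classical
  induction I using Finset.induction_on with
  | empty =>
    rw [sum_empty]
    unfold pr
    apply le_of_eq
    apply sum_eq_zero
    intro F hF
    simp at hF
  | insert a I ha ih =>
    rw [sum_insert ha]
    refine le_trans (pr_mono h0 h1 (Q := fun F => P a F ∨ ∃ i ∈ I, P i F) fun F _ h => ?_)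
      ((pr_or h0 h1 _ _ _).trans (add_le_add le_rfl ih))
    obtain ⟨i, hi, h⟩ := h
    rcases mem_insert.1 hi with rfl | hi
    · exact Or.inl h
    · exact Or.inr ⟨i, hi, h⟩

omit h0 h1 in
theorem wt_union (E T F0 A : Finset α) (hT : T ⊆ E) (hF : F0 ⊆ E \ T) (hA : A ⊆ T) :
    wt p E (F0 ∪ A) = wt p (E \ T) F0 * wt p T A := by
  unfold wt
  have hd : Disjoint F0 A := by
    rw [disjoint_left]
    intro x hx hxA
    exact (mem_sdiff.1 (hF hx)).2 (hA hxA)
  have e : E \ (F0 ∪ A) = ((E \ T) \ F0) ∪ (T \ A) := by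
    ext x
    simp only [mem_sdiff, mem_union]
    constructor
    · rintro ⟨h1, h2⟩
      push Not at h2
      by_cases hx : x ∈ T
      · exact Or.inr ⟨hx, h2.2⟩
      · exact Or.inl ⟨⟨h1, hx⟩, h2.1⟩
    · rintro (⟨⟨h1, h2⟩, h3⟩ | ⟨h1, h2⟩)
      · refine ⟨h1, fun h => ?_⟩
        rcases h with h | h
        · exact h3 h
        · exact h2 (hA h)
      · refine ⟨hT h1, fun h => ?_⟩
        rcases h with h | h
        · exact (mem_sdiff.1 (hF h)).2 h1
        · exact h2 h
  have hd2 : Disjoint ((E \ T) \ F0) (T \ A) := by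
    rw [disjoint_left]
    intro x hx hxA
    exact (mem_sdiff.1 (mem_sdiff.1 hx).1).2 (mem_sdiff.1 hxA).1
  rw [prod_union hd, e, prod_union hd2]
  ring

omit h0 h1 in
/-- a sum over the traces outside `T` -/
theorem pr_split (E T : Finset α) (hT : T ⊆ E) (P : Finset α → Prop) :
    pr p E P = ∑ F0 ∈ (E \ T).powerset, wt p (E \ T) F0 * pr p T (fun A => P (F0 ∪ A)) := by
  classical
  have e1 : ∀ F0 ∈ (E \ T).powerset, wt p (E \ T) F0 * pr p T (fun A => P (F0 ∪ A)) =
      ∑ A ∈ T.powerset.filter (fun A => P (F0 ∪ A)), wt p E (F0 ∪ A) := by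
    intro F0 hF0
    unfold pr
    rw [mul_sum]
    apply sum_congr
    · congr
    · intro A hA
      rw [wt_union E T F0 A hT (mem_powerset.1 hF0) (mem_powerset.1 (mem_filter.1 hA).1)]
  rw [sum_congr rfl e1, sum_sigma']
  unfold pr
  apply sum_bij' (i := fun F _ => (⟨F \ T, F ∩ T⟩ : Σ _ : Finset α, Finset α))
    (j := fun q _ => q.1 ∪ q.2)
  · intro F hF
    rw [mem_filter, mem_powerset] at hF
    rw [mem_sigma, mem_powerset, mem_filter, mem_powerset]
    refine ⟨sdiff_subset_sdiff hF.1 subset_rfl, inter_subset_right, ?_⟩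
    show P (F \ T ∪ F ∩ T)
    rw [sdiff_union_inter]
    exact hF.2
  · intro q hq
    rw [mem_sigma, mem_powerset, mem_filter, mem_powerset] at hq
    rw [mem_filter, mem_powerset]
    exact ⟨union_subset (hq.1.trans sdiff_subset) (hq.2.1.trans hT), hq.2.2⟩
  · intro F hF
    exact sdiff_union_inter F T
  · rintro ⟨q, r⟩ hq
    rw [mem_sigma, mem_powerset, mem_filter, mem_powerset] at hq
    have h1 : q ⊆ E \ T := hq.1
    have h2 : r ⊆ T := hq.2.1
    have e1 : (q ∪ r) \ T = q := by
      ext x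
      rw [mem_sdiff, mem_union]
      constructor
      · rintro ⟨h | h, h'⟩
        · exact h
        · exact absurd (h2 h) h'
      · intro h
        exact ⟨Or.inl h, (mem_sdiff.1 (h1 h)).2⟩
    have e2 : (q ∪ r) ∩ T = r := by
      ext x
      rw [mem_inter, mem_union]
      constructor
      · rintro ⟨h | h, h'⟩
        · exact absurd h' (mem_sdiff.1 (h1 h)).2
        · exact h
      · intro h
        exact ⟨Or.inr h, h2 h⟩
    show (⟨(q ∪ r) \ T, (q ∪ r) ∩ T⟩ : Σ _ : Finset α, Finset α) = ⟨q, r⟩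
    rw [e1, e2]
  · intro F hF
    show wt p E F = wt p E (F \ T ∪ F ∩ T)
    rw [sdiff_union_inter]

theorem pr_cond (E T : Finset α) (hT : T ⊆ E) (P : Finset α → Prop) (ρ : ℝ)
    (h : ∀ F0 : Finset α, F0 ⊆ E \ T → pr p T (fun A => P (F0 ∪ A)) ≤ ρ) : pr p E P ≤ ρ := by
  classical
  rw [pr_split E T hT P]
  calc ∑ F0 ∈ (E \ T).powerset, wt p (E \ T) F0 * pr p T (fun A => P (F0 ∪ A))
      ≤ ∑ F0 ∈ (E \ T).powerset, wt p (E \ T) F0 * ρ :=
        sum_le_sum fun F0 hF0 =>
          mul_le_mul_of_nonneg_left (h F0 (mem_powerset.1 hF0)) (wt_nonneg h0 h1 _ _)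
    _ = pr p (E \ T) (fun _ => True) * ρ := by
        unfold pr
        rw [filter_true, sum_mul]
    _ = ρ := by rw [pr_true, one_mul]

/-- a single set -/
theorem wt_le_exp (E F : Finset α) (hF : F ⊆ E) :
    wt p E F ≤ Real.exp (-(∑ e ∈ E, p e * (1 - p e))) := by
  classical
  have e1 : ∀ e, p e ≤ Real.exp (-(p e * (1 - p e))) := by
    intro e
    have := Real.add_one_le_exp (-(p e * (1 - p e)))
    nlinarith [h0 e, h1 e, mul_nonneg (sub_nonneg.2 (h1 e)) (sub_nonneg.2 (h1 e))]
  have e2 : ∀ e, 1 - p e ≤ Real.exp (-(p e * (1 - p e))) := by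
    intro e
    have := Real.add_one_le_exp (-(p e * (1 - p e)))
    nlinarith [h0 e, h1 e, mul_nonneg (h0 e) (h0 e)]
  unfold wt
  have h3 : ∏ e ∈ F, p e ≤ ∏ e ∈ F, Real.exp (-(p e * (1 - p e))) :=
    prod_le_prod (fun e _ => h0 e) fun e _ => e1 e
  have h4 : ∏ e ∈ E \ F, (1 - p e) ≤ ∏ e ∈ E \ F, Real.exp (-(p e * (1 - p e))) :=
    prod_le_prod (fun e _ => by linarith [h1 e]) fun e _ => e2 e
  refine (mul_le_mul h3 h4 (prod_nonneg fun e _ => by linarith [h1 e])
    (prod_nonneg fun e _ => (Real.exp_pos _).le)).trans (le_of_eq ?_)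
  rw [← Real.exp_sum, ← Real.exp_sum, ← Real.exp_add, sum_neg_distrib, sum_neg_distrib]
  congr 1
  rw [← sum_sdiff hF]
  ring

/-- prescribed coincidences: `a ∈ F ↔ f a ∈ F` for all `a ∈ I`, where no `f a` belongs to `I` -/
theorem pr_link (E I : Finset α) (f : α → α) (hI : I ⊆ E) (hf : ∀ a ∈ I, f a ∉ I) :
    pr p E (fun F => ∀ a ∈ I, (a ∈ F ↔ f a ∈ F)) ≤
      Real.exp (-(∑ e ∈ I, p e * (1 - p e))) := by
  classical
  apply pr_cond h0 h1 E I hI
  intro F0 hF0
  -- the trace on `I` is determined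
  set A0 : Finset α := I.filter (fun a => f a ∈ F0) with hA0
  have hmem : ∀ A : Finset α, A ⊆ I → (∀ a ∈ I, (a ∈ F0 ∪ A ↔ f a ∈ F0 ∪ A)) → A = A0 := by
    intro A hA h
    ext a
    rw [hA0, mem_filter]
    constructor
    · intro ha
      refine ⟨hA ha, ?_⟩
      have := (h a (hA ha)).1 (mem_union_right _ ha)
      rcases mem_union.1 this with h' | h'
      · exact h'
      · exact absurd (hA h') (hf a (hA ha))
    · rintro ⟨ha, h'⟩
      have := (h a ha).2 (mem_union_left _ h')
      rcases mem_union.1 this with h2 | h2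
      · exact absurd ha (mem_sdiff.1 (hF0 h2)).2
      · exact h2
  have hle : pr p I (fun A => ∀ a ∈ I, (a ∈ F0 ∪ A ↔ f a ∈ F0 ∪ A)) ≤
      ∑ A ∈ ({A0} : Finset (Finset α)), wt p I A := by
    unfold pr
    apply sum_le_sum_of_subset_of_nonneg
    · intro A hA
      simp only [mem_filter, mem_powerset] at hA
      rw [mem_singleton]
      exact hmem A hA.1 hA.2
    · intro A _ _
      exact wt_nonneg h0 h1 I A
  rw [sum_singleton] at hle
  exact hle.trans (wt_le_exp h0 h1 I A0 (filter_subset _ _))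

end

/-- weighted greedy independent sets for a symmetric relation of bounded degree -/
theorem exists_indep_weight {α : Type} [DecidableEq α] (r : α → α → Prop)
    (hr : ∀ a b, r a b → r b a) (w : α → ℝ) (hw : ∀ a, 0 ≤ w a) (D : ℕ) (S : Finset α)
    (hD : ∀ a ∈ S, ∀ X : Finset α, X ⊆ S → (∀ b ∈ X, b ≠ a ∧ r a b) → X.card ≤ D) :
    ∃ I : Finset α, I ⊆ S ∧ (∀ a ∈ I, ∀ b ∈ I, a ≠ b → ¬ r a b) ∧
      ∑ a ∈ S, w a ≤ ((D : ℝ) + 1) * ∑ a ∈ I, w a := by
  classical
  induction S using Finset.strongInduction with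
  | H S ih =>
    rcases S.eq_empty_or_nonempty with rfl | hS
    · exact ⟨∅, subset_rfl, by simp, by simp⟩
    · obtain ⟨a, ha, hmax⟩ := exists_max_image S w hS
      set N : Finset α := S.filter (fun b => b ≠ a ∧ r a b) with hN
      set S' : Finset α := (S.erase a) \ N with hS'
      have hss : S' ⊂ S := by
        refine ⟨fun x hx => mem_of_mem_erase (mem_sdiff.1 hx).1, fun hc => ?_⟩
        have := hc ha
        exact absurd (mem_sdiff.1 this).1 (notMem_erase a S)
      obtain ⟨I, hI, hind, hsum⟩ := ih S' hss (fun b hb X hX h =>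
        hD b (hss.1 hb) X (hX.trans hss.1) h)
      have haI : a ∉ I := fun h => absurd (mem_sdiff.1 (hI h)).1 (notMem_erase a S)
      refine ⟨insert a I, ?_, ?_, ?_⟩
      · intro x hx
        rcases mem_insert.1 hx with rfl | hx
        · exact ha
        · exact hss.1 (hI hx)
      · have hx : ∀ b ∈ I, ¬ r a b := by
          intro b hb hab
          have h1 := mem_sdiff.1 (hI hb)
          apply h1.2
          rw [hN, mem_filter]
          exact ⟨mem_of_mem_erase h1.1, (mem_erase.1 h1.1).1, hab⟩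
        intro b hb c hc hbc
        rcases mem_insert.1 hb with hb' | hb'
        · rcases mem_insert.1 hc with hc' | hc'
          · exact absurd (hb'.trans hc'.symm) hbc
          · rw [hb']
            exact hx c hc'
        · rcases mem_insert.1 hc with hc' | hc'
          · rw [hc']
            exact fun h => hx b hb' (hr _ _ h)
          · exact hind b hb' c hc' hbc
      · rw [sum_insert haI]
        have hNS : N ⊆ S.erase a := by
          intro x hx
          rw [hN, mem_filter] at hx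
          exact mem_erase.2 ⟨hx.2.1, hx.1⟩
        have e1 : ∑ x ∈ S, w x = w a + (∑ x ∈ S', w x + ∑ x ∈ N, w x) := by
          rw [hS', sum_sdiff hNS, add_sum_erase S w ha]
        have e2 : ∑ x ∈ N, w x ≤ D * w a := by
          calc ∑ x ∈ N, w x ≤ ∑ _x ∈ N, w a :=
                sum_le_sum fun x hx => hmax x (mem_filter.1 hx).1
            _ = (N.card : ℝ) * w a := by rw [sum_const, nsmul_eq_mul]
            _ ≤ D * w a := by
                apply mul_le_mul_of_nonneg_right _ (hw a)
                exact_mod_cast hD a ha N (filter_subset _ _) (fun b hb => (mem_filter.1 hb).2)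
        rw [e1]
        nlinarith [hw a]

end Pool.Agent.Y395.RW
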