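import Pool.Agent.Y395.RW.Basic
import Pool.Agent.Y86.RS.CERT
import Pool.Agent.Y405.RS.CORE2

set_option autoImplicit false

/-! Random graphs with independent edges of arbitrary probabilities: near-automorphisms fix all
vertices of a core of large degree variance. -/

namespace Pool.Agent.Y395.RW

open Finset Pool.Agent.H234RC Pool.Agent.TH953.RC Pool.Agent.Y395.RS

section

variable {V : Type} [Fintype V] [DecidableEq V]

/-- all pairs of different vertices -/
def pairs (V : Type) [Fintype V] [DecidableEq V] : Finset (Sym2 V) :=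
  univ.filter (fun e => ¬ e.IsDiag)

theorem mem_pairs (x y : V) : s(x, y) ∈ pairs V ↔ x ≠ y := by
  unfold pairs
  rw [mem_filter, Sym2.mk_isDiag_iff]
  exact ⟨fun h => h.2, fun h => ⟨mem_univ _, h⟩⟩

theorem adj_pairs {F : Finset (Sym2 V)} (hF : F ⊆ pairs V) (x y : V) :
    (gr F).Adj x y ↔ s(x, y) ∈ F := by
  rw [gr_adj]
  exact ⟨fun h => h.1, fun h => ⟨h, (mem_pairs x y).1 (hF h)⟩⟩

/-- the map `ψ` preserves the edges and nonedges from `K` to `Q` without `B` -/
def Evw (Q K B : Finset V) (ψ : V → V) (F : Finset (Sym2 V)) : Prop :=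
  ∀ x ∈ K, ∀ z ∈ Q, z ∉ B → z ≠ x → (s(x, z) ∈ F ↔ s(ψ x, ψ z) ∈ F)

theorem wcert (p : Sym2 V → ℝ) (h0 : ∀ e, 0 ≤ p e) (h1 : ∀ e, p e ≤ 1) (Q K B : Finset V)
    (ψ : V → V) (σ : ℝ) (hKQ : K ⊆ Q) (hinj : Set.InjOn ψ K) (hne : ∀ x ∈ K, ψ x ≠ x)
    (hout : ∀ x, x ∉ K → ψ x = x) (hB : B.card ≤ 2)
    (hσ : ∀ x ∈ K, σ ≤ ∑ z ∈ Q.erase x, p s(x, z) * (1 - p s(x, z))) :
    pr p (pairs V) (Evw Q K B ψ) ≤ Real.exp (-((K.card : ℝ) * (σ - 3 / 4) / 12)) := by
  classical
  set w : Sym2 V → ℝ := fun e => p e * (1 - p e) with hw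
  have hw0 : ∀ e, 0 ≤ w e := fun e => mul_nonneg (h0 e) (by linarith [h1 e])
  have hw4 : ∀ e, w e ≤ 1 / 4 := fun e => by
    have := sq_nonneg (p e - 1 / 2)
    simp only [hw]
    nlinarith
  set S : Finset (Sym2 V) := (pairs V).filter (fun e => ∃ x ∈ K, ∃ z ∈ Q, z ∉ B ∧ s(x, z) = e ∧
    s(ψ x, ψ z) ≠ s(x, z)) with hS
  -- the total weight of `S`
  have hx : ∀ x ∈ K, σ - 3 / 4 ≤ ∑ e ∈ S.filter (fun e => x ∈ e), w e := by
    intro x hxK
    set N : Finset V := (Q.erase x).filter (fun z => z ∉ B ∧ z ≠ ψ x) with hN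
    have e1 : ∑ z ∈ Q.erase x, w s(x, z) ≤ ∑ z ∈ N, w s(x, z) + 3 / 4 := by
      rw [← sum_filter_add_sum_filter_not (Q.erase x) (fun z => z ∉ B ∧ z ≠ ψ x)]
      refine add_le_add le_rfl ?_
      calc ∑ z ∈ (Q.erase x).filter (fun z => ¬ (z ∉ B ∧ z ≠ ψ x)), w s(x, z)
          ≤ ∑ z ∈ B ∪ {ψ x}, w s(x, z) := by
            apply sum_le_sum_of_subset_of_nonneg
            · intro z hz
              have hz' := (mem_filter.1 hz).2
              rw [mem_union, mem_singleton]
              by_contra hc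
              push Not at hc
              exact hz' hc
            · intro z _ _
              exact hw0 _
        _ ≤ ∑ _z ∈ B ∪ {ψ x}, (1 / 4 : ℝ) := sum_le_sum fun z _ => hw4 _
        _ = ((B ∪ {ψ x}).card : ℝ) * (1 / 4) := by rw [sum_const, nsmul_eq_mul]
        _ ≤ 3 * (1 / 4) := by
            apply mul_le_mul_of_nonneg_right _ (by norm_num)
            have h3 := card_union_le B {ψ x}
            rw [card_singleton] at h3
            exact_mod_cast (by omega : (B ∪ {ψ x}).card ≤ 3)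
        _ = 3 / 4 := by norm_num
    have e2 : ∑ z ∈ N, w s(x, z) ≤ ∑ e ∈ S.filter (fun e => x ∈ e), w e := by
      have himg : N.image (fun z => s(x, z)) ⊆ S.filter (fun e => x ∈ e) := by
        intro e he
        obtain ⟨z, hz, rfl⟩ := mem_image.1 he
        rw [hN, mem_filter, mem_erase] at hz
        obtain ⟨⟨hzx, hzQ⟩, hzB, hzψ⟩ := hz
        rw [mem_filter, hS, mem_filter, mem_pairs]
        refine ⟨⟨hzx.symm, x, hxK, z, hzQ, hzB, rfl, ?_⟩, Sym2.mem_mk_left x z⟩
        intro heq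
        rcases Sym2.eq_iff.1 heq with ⟨h3, -⟩ | ⟨h3, -⟩
        · exact hne x hxK h3
        · exact hzψ h3.symm
      calc ∑ z ∈ N, w s(x, z) = ∑ e ∈ N.image (fun z => s(x, z)), w e := by
            rw [sum_image]
            intro z1 _ z2 _ h12
            have h12' : s(x, z1) = s(x, z2) := h12
            exact Sym2.congr_right.1 h12'
        _ ≤ _ := sum_le_sum_of_subset_of_nonneg himg fun e _ _ => hw0 e
    have := hσ x hxK
    linarith
  have hSw : (K.card : ℝ) * (σ - 3 / 4) ≤ 2 * ∑ e ∈ S, w e := by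
    calc (K.card : ℝ) * (σ - 3 / 4) = ∑ _x ∈ K, (σ - 3 / 4) := by rw [sum_const, nsmul_eq_mul]
      _ ≤ ∑ x ∈ K, ∑ e ∈ S.filter (fun e => x ∈ e), w e := sum_le_sum hx
      _ = ∑ e ∈ S, ∑ x ∈ K.filter (fun x => x ∈ e), w e := by
          rw [sum_congr rfl (fun x _ => sum_filter (s := S) (fun e => x ∈ e) w), sum_comm]
          exact sum_congr rfl (fun e _ => (sum_filter (s := K) (fun x => x ∈ e) _).symm)
      _ ≤ ∑ e ∈ S, 2 * w e := by
          apply sum_le_sum
          intro e _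
          rw [sum_const, nsmul_eq_mul]
          apply mul_le_mul_of_nonneg_right _ (hw0 e)
          have hsub : (K.filter (fun x => x ∈ e)).card ≤ 2 := by
            induction e using Sym2.ind with
            | _ a b =>
              have hs : K.filter (fun x => x ∈ s(a, b)) ⊆ {a, b} := by
                intro x hx
                rw [mem_insert, mem_singleton]
                exact Sym2.mem_iff.1 (mem_filter.1 hx).2
              exact (card_le_card hs).trans card_le_two
          exact_mod_cast hsub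
      _ = 2 * ∑ e ∈ S, w e := by rw [mul_sum]
  -- the independent set of links
  set f : Sym2 V → Sym2 V := Sym2.map ψ with hf
  have hfne : ∀ a ∈ S, f a ≠ a := by
    intro a ha
    rw [hS, mem_filter] at ha
    obtain ⟨-, x, hx, z, hz, hzB, rfl, h⟩ := ha
    rw [hf, Sym2.map_mk]
    exact h
  obtain ⟨I, hIS, hI, hIw⟩ := exists_indep_weight (fun a b => f a = b ∨ f b = a)
    (fun a b h => h.symm) w hw0 5 S (by
      intro a ha X hX hXr
      have hsub : X ⊆ {f a} ∪ S.filter (fun b => Sym2.map ψ b = a) := by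
        intro b hb
        rw [mem_union, mem_singleton, mem_filter]
        rcases (hXr b hb).2 with h | h
        · exact Or.inl h.symm
        · exact Or.inr ⟨hX hb, h⟩
      have h2 := (card_le_card hsub).trans (card_union_le _ _)
      have h3 := Pool.Agent.Y86.RS.CERT.card_preimage_map hinj hout S a
      rw [card_singleton] at h2
      omega)
  have hlink : pr p (pairs V) (Evw Q K B ψ) ≤ Real.exp (-(∑ e ∈ I, w e)) := by
    refine le_trans (pr_mono h0 h1 (Q := fun F => ∀ a ∈ I, (a ∈ F ↔ f a ∈ F)) ?_)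
      (pr_link h0 h1 (pairs V) I f (hIS.trans (filter_subset _ _)) ?_)
    · intro F _ hE a ha
      have ha' := hIS ha
      rw [hS, mem_filter] at ha'
      obtain ⟨hpa, x, hx, z, hz, hzB, rfl, -⟩ := ha'
      rw [hf, Sym2.map_mk]
      exact hE x hx z hz hzB ((mem_pairs x z).1 hpa).symm
    · intro a ha hfa
      exact hI a ha (f a) hfa (hfne a (hIS ha)).symm (Or.inl rfl)
  refine hlink.trans (Real.exp_le_exp.2 ?_)
  push_cast at hIw
  linarith

/-- near-automorphisms of a random graph fix the vertices of a core -/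
theorem wcore (p : Sym2 V → ℝ) (h0 : ∀ e, 0 ≤ p e) (h1 : ∀ e, p e ≤ 1) (Y : Finset V)
    (hV : 2 ≤ Fintype.card V)
    (hY : ∀ x ∈ Y, 72 * Real.log (Fintype.card V) + 1 ≤
      ∑ z ∈ Y.erase x, p s(x, z) * (1 - p s(x, z))) :
    pr p (pairs V) (fun F => ∃ y ∈ Y, ¬ Rn (gr F) y) ≤ 1 / (Fintype.card V : ℝ) := by
  classical
  set n := Fintype.card V with hn
  have hn0 : (0 : ℝ) < n := by
    have : 0 < n := by omega
    exact_mod_cast this
  let Ψ : Finset V → Finset (V → V) := fun K =>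
    Fintype.piFinset (fun x => if x ∈ K then (univ : Finset V) else {x})
  have hΨc : ∀ K, (Ψ K).card = n ^ K.card := by
    intro K
    rw [Fintype.card_piFinset]
    have h1 : ∀ x : V, (if x ∈ K then (univ : Finset V) else {x}).card =
        if x ∈ K then n else 1 := by
      intro x
      split_ifs
      · exact card_univ
      · exact card_singleton _
    rw [prod_congr rfl (fun x _ => h1 x), prod_ite, prod_const, prod_const_one, mul_one]
    congr 1
    congr 1
    ext x
    simp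
  let 𝒦 : Finset (Finset V) := (univ : Finset V).powerset.filter (fun K => K.Nonempty)
  let P : V × V → Finset V → (V → V) → Finset (Sym2 V) → Prop := fun u K ψ F =>
    Pool.Agent.Y405.RS.Core2.Hyp Y K {u.1, u.2} ψ ∧ Evw Y K {u.1, u.2} ψ F
  -- the deterministic part
  have hdet : ∀ F, F ⊆ pairs V → (∃ y ∈ Y, ¬ Rn (gr F) y) →
      ∃ u ∈ (univ : Finset (V × V)), ∃ K ∈ 𝒦, ∃ ψ ∈ Ψ K, P u K ψ F := by
    rintro F hF ⟨y, hy, hR⟩
    unfold Rn at hR
    push Not at hR
    obtain ⟨φ, hφ, hy1, hy2, hy3⟩ := hR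
    let K : Finset V := Y.filter (fun x => x ≠ φ.2.1 ∧ x ≠ φ.2.2 ∧ φ.1 x ≠ x)
    have hK : ∀ x, x ∈ K ↔ x ∈ Y ∧ x ≠ φ.2.1 ∧ x ≠ φ.2.2 ∧ φ.1 x ≠ x := fun x => mem_filter
    let ψ : V → V := fun x => if x ∈ K then φ.1 x else x
    have hψ1 : ∀ x, x ∈ K → ψ x = φ.1 x := fun x hx => if_pos hx
    have hψ2 : ∀ x, x ∉ K → ψ x = x := fun x hx => if_neg hx
    refine ⟨(φ.2.1, φ.2.2), mem_univ _, K, ?_, ψ, ?_, ⟨?_, ?_, ?_, ?_, ?_⟩, ?_⟩
    · rw [mem_filter]
      exact ⟨mem_powerset.mpr (subset_univ _), ⟨y, (hK y).mpr ⟨hy, hy1, hy2, hy3⟩⟩⟩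
    · rw [Fintype.mem_piFinset]
      intro x
      by_cases hx : x ∈ K
      · rw [if_pos hx]
        exact mem_univ _
      · rw [if_neg hx, mem_singleton]
        exact hψ2 x hx
    · exact fun x hx => ((hK x).mp hx).1
    · intro x hx hB
      have h1 := (hK x).mp hx
      rw [mem_insert, mem_singleton] at hB
      rcases hB with h | h
      · exact h1.2.1 h
      · exact h1.2.2.1 h
    · intro x hx z hz h
      rw [hψ1 x hx, hψ1 z hz] at h
      exact φ.1.injective h
    · intro x hx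
      rw [hψ1 x hx]
      exact ((hK x).mp hx).2.2.2
    · exact hψ2
    · intro x hx z hz hzB hzx
      have h1 := (hK x).mp hx
      rw [mem_insert, mem_singleton, not_or] at hzB
      have h2 : ψ z = φ.1 z := by
        by_cases hzK : z ∈ K
        · exact hψ1 z hzK
        · rw [hψ2 z hzK]
          by_contra hne
          exact hzK ((hK z).mpr ⟨hz, hzB.1, hzB.2, fun e => hne e.symm⟩)
      rw [hψ1 x hx, h2, ← adj_pairs hF, ← adj_pairs hF]
      exact (hφ x z h1.2.1 h1.2.2.1 hzB.1 hzB.2).symm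
  -- the probability of a certificate
  have hP : ∀ u K ψ, pr p (pairs V) (P u K ψ) ≤ ((1 : ℝ) / n) ^ (6 * K.card) := by
    intro u K ψ
    by_cases hH : Pool.Agent.Y405.RS.Core2.Hyp Y K {u.1, u.2} ψ
    · obtain ⟨g1, g2, g3, g4, g5⟩ := hH
      have h6 := wcert p h0 h1 Y K {u.1, u.2} ψ (72 * Real.log n + 1) g1 g3 g4 g5
        card_le_two (fun x hx => hY x (g1 hx))
      refine (pr_mono h0 h1 fun F _ hF => hF.2).trans (h6.trans ?_)
      have e1 : ((1 : ℝ) / n) ^ (6 * K.card) =
          Real.exp (-((K.card : ℝ) * (72 * Real.log n) / 12)) := by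
        rw [one_div, inv_pow, Real.exp_neg]
        congr 1
        rw [← Real.exp_log hn0, ← Real.exp_nat_mul, Real.log_exp]
        congr 1
        push_cast
        ring
      rw [e1]
      apply Real.exp_le_exp.2
      have : (0 : ℝ) ≤ K.card := Nat.cast_nonneg _
      nlinarith
    · refine (pr_mono h0 h1 (Q := fun _ => False) fun F _ hF => hH hF.1).trans ?_
      rw [pr_false]
      positivity
  -- the union bound
  have hU1 : ∀ u K, pr p (pairs V) (fun F => ∃ ψ ∈ Ψ K, P u K ψ F) ≤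
      ((1 : ℝ) / n ^ 5) ^ K.card := by
    intro u K
    refine (pr_ex h0 h1 _ _ _).trans ((sum_le_sum fun ψ _ => hP u K ψ).trans (le_of_eq ?_))
    rw [sum_const, hΨc, nsmul_eq_mul]
    push_cast
    rw [pow_mul, ← mul_pow]
    congr 1
    field_simp
  have hU2 : ∀ u, pr p (pairs V) (fun F => ∃ K ∈ 𝒦, ∃ ψ ∈ Ψ K, P u K ψ F) ≤ 2 / n ^ 4 := by
    intro u
    refine (pr_ex h0 h1 _ _ _).trans ((sum_le_sum fun K _ => hU1 u K).trans ?_)
    have h1 := Pool.Agent.Y405.RS.Core2.sum_bound (V := V) ((1 : ℝ) / n ^ 5) (by positivity) (by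
      rw [← hn]
      have h2 : (n : ℝ) * (1 / n ^ 5) = 1 / n ^ 4 := by field_simp
      rw [h2, div_le_one (by positivity)]
      have h3 : (1 : ℝ) ≤ n := by
        have : 1 ≤ n := by omega
        exact_mod_cast this
      exact one_le_pow₀ h3)
    refine h1.trans (le_of_eq ?_)
    rw [← hn]
    field_simp
  refine (pr_mono h0 h1 hdet).trans ((pr_ex h0 h1 _ _ _).trans
    ((sum_le_sum fun u _ => hU2 u).trans ?_))
  rw [sum_const, card_univ, Fintype.card_prod, nsmul_eq_mul, ← hn]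
  push_cast
  have h1 : (n : ℝ) * n * (2 / n ^ 4) = 1 / n * (2 / n) := by field_simp
  rw [h1]
  have h2 : (2 : ℝ) / n ≤ 1 := by
    rw [div_le_one hn0]
    exact_mod_cast hV
  exact mul_le_of_le_one_right (by positivity) h2

end

end Pool.Agent.Y395.RW
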