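import Pool.Agent.Y395.RW.Core
import Pool.Agent.Y395.RS.Thm

set_option autoImplicit false

/-! Random graphs with independent edges of arbitrary probabilities: reconstruction. -/

namespace Pool.Agent.Y395.RW

open Finset Pool.Agent.H234RC Pool.Agent.TH953.RC Pool.Agent.Y395.RS

section

variable {V : Type} [Fintype V]

theorem Rn_compl {G : SimpleGraph V} {x : V} (h : Rn G x) : Rn Gᶜ x := by
  intro φ hφ h1 h2
  refine h φ (fun a b ha1 ha2 hb1 hb2 => ?_) h1 h2
  have := hφ a b ha1 ha2 hb1 hb2
  rw [SimpleGraph.compl_adj, SimpleGraph.compl_adj] at this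
  by_cases hab : a = b
  · subst hab
    simp
  · have hne : φ.1 a ≠ φ.1 b := fun e => hab (φ.1.injective e)
    by_contra hc
    by_cases h3 : G.Adj a b
    · have h4 : ¬ G.Adj (φ.1 a) (φ.1 b) := fun h4 => hc ⟨fun _ => h3, fun _ => h4⟩
      exact (this.1 ⟨hne, h4⟩).2 h3
    · have h4 : G.Adj (φ.1 a) (φ.1 b) := by
        by_contra h4
        exact hc ⟨fun h => absurd h h4, fun h => absurd h h3⟩
      exact (this.2 ⟨hab, h3⟩).2 h4

open Classical in
/-- consequences of a rigid set `Y` of vertices -/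
def Good (G : SimpleGraph V) (Y : Finset V) : Prop :=
  (Y = univ → ∀ a b c : V, a ≠ b → a ≠ c → b ≠ c → TC G a b c) ∧
  ((BT G).card ≤ (5 * (Fintype.card V - Y.card) + 3) * Fintype.card V ^ 2) ∧
  (Fintype.card V + 2 ≤ 2 * Y.card → Reconstructible G) ∧
  (∀ z : V, (∀ u : V, G.Adj z u → u ∈ Y) ∨ (∀ u : V, u ≠ z → ¬ G.Adj z u → u ∈ Y) →
    Reconstructible G)

theorem good_of_rigid (G : SimpleGraph V) (Y : Finset V) (hV : 3 ≤ Fintype.card V)
    (hY : ∀ y ∈ Y, Rn G y) : Good G Y := by
  classical
  have hMv : (Mv G).card ≤ Fintype.card V - Y.card := by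
    have hsub : Mv G ⊆ univ \ Y := by
      intro v hv
      rw [mem_sdiff]
      exact ⟨mem_univ _, fun h => (mem_Mv G v).1 hv (hY v h)⟩
    have := card_le_card hsub
    rw [card_sdiff_of_subset (subset_univ _), card_univ] at this
    exact this
  refine ⟨?_, ?_, ?_, ?_⟩
  · rintro rfl a b c hab hac hbc
    exact criterionTC G a b c hab hac hbc (hY a (mem_univ _)) (hY b (mem_univ _))
      (fun s t hs _ _ => absurd (hY s (mem_univ _)) hs)
  · refine (le_of_eq ?_).trans ((bad_triples G).trans
      (Nat.mul_le_mul_right _ (Nat.add_le_add_right (Nat.mul_le_mul_left _ hMv) _)))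
    congr
  · intro h
    refine Pool.Agent.Y297.RS.HALF.main V G hV ?_
    have := card_le_univ Y
    omega
  · rintro z (h | h)
    · exact Pool.Agent.Y125.RS.star V G z hV (fun u hu => hY u (h u hu))
    · have h1 : Reconstructible Gᶜ := by
        refine Pool.Agent.Y125.RS.star V Gᶜ z hV (fun u hu => Rn_compl (hY u ?_))
        rw [SimpleGraph.compl_adj] at hu
        exact h u hu.1.symm hu.2
      have h2 := recon_compl _ h1
      rwa [compl_compl] at h2

open Classical in
/-- the probability of the graph `H` -/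
noncomputable def prob (p : Sym2 V → ℝ) (H : SimpleGraph V) : ℝ :=
  ∏ e ∈ univ.filter (fun e : Sym2 V => ¬ e.IsDiag), if e ∈ H.edgeSet then p e else 1 - p e

open Classical in
theorem sum_prob (p : Sym2 V → ℝ) (P : SimpleGraph V → Prop) :
    ∑ H ∈ univ.filter (fun H : SimpleGraph V => P H), prob p H =
      pr p (pairs V) (fun F => P (gr F)) := by
  have hed : ∀ H : SimpleGraph V, ed H ⊆ pairs V := by
    intro H e
    induction e using Sym2.ind with
    | _ x y =>
      rw [mem_ed, mem_pairs]
      exact fun h => h.ne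
  have hg : ∀ F : Finset (Sym2 V), F ⊆ pairs V → ed (gr F) = F := by
    intro F hF
    ext e
    induction e using Sym2.ind with
    | _ x y => rw [mem_ed, adj_pairs hF]
  unfold pr
  apply sum_nbij' (i := fun H => ed H) (j := fun F => gr F)
  · intro H hH
    rw [mem_filter] at hH ⊢
    refine ⟨mem_powerset.2 (hed H), ?_⟩
    show P (gr (ed H))
    rw [gr_ed]
    exact hH.2
  · intro F hF
    rw [mem_filter] at hF ⊢
    exact ⟨mem_univ _, hF.2⟩
  · intro H _
    exact gr_ed H
  · intro F hF
    exact hg F (mem_powerset.1 (mem_filter.1 hF).1)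
  · intro H _
    have e1 : ∀ e : Sym2 V, e ∈ ed H ↔ e ∈ H.edgeSet := by
      intro e
      induction e using Sym2.ind with
      | _ x y => rw [mem_ed, SimpleGraph.mem_edgeSet]
    have hp : (univ.filter (fun e : Sym2 V => ¬ e.IsDiag)) = pairs V := by
      unfold pairs
      congr
    unfold prob wt
    rw [hp, prod_ite]
    congr 1
    · apply prod_congr _ (fun _ _ => rfl)
      ext e
      rw [mem_filter, e1]
      exact ⟨fun h => h.2, fun h => ⟨hed H ((e1 e).2 h), h⟩⟩
    · apply prod_congr _ (fun _ _ => rfl)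
      ext e
      rw [mem_filter, mem_sdiff, e1]

open Classical in
theorem main (p : Sym2 V → ℝ) (Y : Finset V) (hV : 3 ≤ Fintype.card V)
    (hp : ∀ e, 0 ≤ p e ∧ p e ≤ 1)
    (hY : ∀ x ∈ Y, 72 * Real.log (Fintype.card V) + 1 ≤
      ∑ z ∈ Y.filter (fun z => z ≠ x), p s(x, z) * (1 - p s(x, z))) :
    ∑ H ∈ univ.filter (fun H : SimpleGraph V => ¬ Good H Y), prob p H ≤
      1 / (Fintype.card V : ℝ) := by
  have e0 : ∑ H ∈ univ.filter (fun H : SimpleGraph V => ¬ Good H Y), prob p H =
      pr p (pairs V) (fun F => ¬ Good (gr F) Y) := by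
    convert sum_prob p (fun H => ¬ Good H Y)
  rw [e0]
  refine (pr_mono (fun e => (hp e).1) (fun e => (hp e).2)
    (Q := fun F => ∃ y ∈ Y, ¬ Rn (gr F) y) ?_).trans
    (wcore p (fun e => (hp e).1) (fun e => (hp e).2) Y (by omega) ?_)
  · intro F _ h
    by_contra hc
    push Not at hc
    exact h (good_of_rigid (gr F) Y hV hc)
  · intro x hx
    refine (hY x hx).trans (le_of_eq ?_)
    apply sum_congr _ (fun _ _ => rfl)
    ext z
    rw [mem_filter, mem_erase]
    exact and_comm

end

end Pool.Agent.Y395.RW
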